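import Pool.Agent.U737.MN.Stm3
import Pool.Agent.TH293.J3093

/-!
Project MN, package KumUnif: uniform upper bound for the number of Kummer extensions of prime degree.
-/

set_option autoImplicit false

open NumberField Filter Topology UniqueFactorizationMonoid

namespace Pool.Agent.U278.MN

open Pool.Agent.U737.MN
open Pool.Agent.TH444.ML (dsc nrm Rep IdealUnif)

/-- splitting off an `ℓ`-th power -/
theorem split {R : Type} [CommRing R] [IsDedekindDomain R] (ℓ : ℕ) (hℓ : 2 ≤ ℓ) (I : Ideal R)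
    (hI : I ≠ ⊥) :
    ∃ (W : Finset (Ideal R)) (m : Ideal R → Fin (ℓ - 1)) (𝔟 : Ideal R), (∀ P ∈ W, Prime P) ∧
      𝔟 ≠ ⊥ ∧ I = (∏ P ∈ W, P ^ ((m P : ℕ) + 1)) * 𝔟 ^ ℓ := by
  classical
  obtain ⟨v, hv⟩ : ∃ v : Ideal R → ℕ, v = fun P => (normalizedFactors I).count P := ⟨_, rfl⟩
  obtain ⟨F, hF⟩ : ∃ F, F = (normalizedFactors I).toFinset := ⟨_, rfl⟩
  have hP : ∀ P ∈ F, Prime P := by
    intro P hP
    rw [hF] at hP
    exact prime_of_normalized_factor P (Multiset.mem_toFinset.1 hP)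
  have hprod : I = ∏ P ∈ F, P ^ v P := by
    have h1 := Ideal.prod_normalizedFactors_eq_self hI
    rw [Finset.prod_multiset_count] at h1
    rw [hv, hF]
    exact h1.symm
  have hm : ∀ P, v P % ℓ - 1 < ℓ - 1 := by
    intro P
    have := Nat.mod_lt (v P) (show ℓ > 0 by omega)
    omega
  refine ⟨F.filter (fun P => v P % ℓ ≠ 0), fun P => ⟨v P % ℓ - 1, hm P⟩, ∏ P ∈ F, P ^ (v P / ℓ),
    fun P h => hP P (Finset.mem_filter.1 h).1, ?_, ?_⟩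
  · rw [← Ideal.zero_eq_bot, Finset.prod_ne_zero_iff]
    intro P h
    exact pow_ne_zero _ (hP P h).ne_zero
  · have h2 : ∏ P ∈ F.filter (fun P => v P % ℓ ≠ 0), P ^ ((v P % ℓ - 1) + 1) =
        ∏ P ∈ F, P ^ (v P % ℓ) := by
      rw [← Finset.prod_filter_of_ne (s := F) (f := fun P => P ^ (v P % ℓ))
        (p := fun P => v P % ℓ ≠ 0)]
      · refine Finset.prod_congr rfl fun P h => ?_
        have h3 := (Finset.mem_filter.1 h).2
        congr 1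
        omega
      · intro P _ h3 h4
        apply h3
        rw [h4, pow_zero]
    show I = (∏ P ∈ F.filter (fun P => v P % ℓ ≠ 0), P ^ ((v P % ℓ - 1) + 1)) *
      (∏ P ∈ F, P ^ (v P / ℓ)) ^ ℓ
    rw [h2, ← Finset.prod_pow, ← Finset.prod_mul_distrib]
    conv_lhs => rw [hprod]
    refine Finset.prod_congr rfl fun P _ => ?_
    rw [← pow_mul, ← pow_add]
    congr 1
    have := Nat.mod_add_div (v P) ℓ
    rw [mul_comm] at this
    omega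

theorem not_pow {R : Type} [CommRing R] [IsDedekindDomain R] (W : Finset (Ideal R))
    (e : Ideal R → ℕ) (ℓ : ℕ) (hW : ∀ P ∈ W, Prime P) (P : Ideal R) (hP : P ∈ W)
    (he : e P < ℓ) : ¬ P ^ ℓ ∣ ∏ Q ∈ W, Q ^ e Q := by
  classical
  intro h
  rw [← Finset.mul_prod_erase W _ hP] at h
  have h1 : P ^ ℓ = P ^ e P * P ^ (ℓ - e P) := by
    rw [← pow_add]
    congr 1
    omega
  rw [h1] at h
  have h2 := (mul_dvd_mul_iff_left (pow_ne_zero _ (hW P hP).ne_zero)).1 h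
  have h3 : P ∣ ∏ Q ∈ W.erase P, Q ^ e Q := (dvd_pow_self P (by omega)).trans h2
  obtain ⟨Q, hQ, hd⟩ := ((hW P hP).dvd_finsetProd_iff _).1 h3
  have h4 := (hW P hP).dvd_of_dvd_pow hd
  have h5 := (hW P hP).associated_of_dvd (hW Q (Finset.mem_of_mem_erase hQ)) h4
  rw [associated_iff_eq] at h5
  exact (Finset.ne_of_mem_erase hQ) h5.symm

section

variable {K Ω : Type} [Field K] [Field Ω] [Algebra K Ω] (M : IntermediateField K Ω)

theorem sup_eq {x s s' : Ω} (hx : x ∈ M) (hx0 : x ≠ 0) (h : s' = x * s) :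
    M ⊔ IntermediateField.adjoin K {s'} = M ⊔ IntermediateField.adjoin K {s} := by
  apply le_antisymm
  · refine sup_le le_sup_left ?_
    rw [IntermediateField.adjoin_simple_le_iff, h]
    exact mul_mem ((le_sup_left : M ≤ _) hx)
      ((le_sup_right : IntermediateField.adjoin K {s} ≤ _)
        (IntermediateField.mem_adjoin_simple_self K s))
  · refine sup_le le_sup_left ?_
    rw [IntermediateField.adjoin_simple_le_iff]
    have h2 : s = x⁻¹ * s' := by rw [h, inv_mul_cancel_left₀ hx0]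
    rw [h2]
    exact mul_mem ((le_sup_left : M ≤ _) (inv_mem hx))
      ((le_sup_right : IntermediateField.adjoin K {s'} ≤ _)
        (IntermediateField.mem_adjoin_simple_self K s'))

theorem kum_mul {ℓ : ℕ} {L : IntermediateField K Ω} {x s : Ω} (h : Kum ℓ M L s) (hx : x ∈ M)
    (hx0 : x ≠ 0) : Kum ℓ M L (x * s) := by
  obtain ⟨h1, h2, h3⟩ := h
  refine ⟨?_, ?_, ?_⟩
  · rw [mul_pow]
    exact mul_mem (pow_mem hx ℓ) h1
  · intro h4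
    apply h2
    have h5 : s = x⁻¹ * (x * s) := by rw [inv_mul_cancel_left₀ hx0]
    rw [h5]
    exact mul_mem (inv_mem hx) h4
  · rw [h3]
    exact (sup_eq M hx hx0 rfl).symm

theorem same {ℓ : ℕ} (hℓ : ℓ ≠ 0) (hz : HasZ ℓ K) {s s' v : Ω} (hv : v ∈ M) (hv0 : v ≠ 0)
    (hs0 : s ≠ 0) (h : s' ^ ℓ = v ^ ℓ * s ^ ℓ) :
    M ⊔ IntermediateField.adjoin K {s'} = M ⊔ IntermediateField.adjoin K {s} := by
  obtain ⟨ζ, hζ⟩ := hz
  have hz := hζ.map_of_injective (algebraMap K Ω).injective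
  have hvs : v * s ≠ 0 := mul_ne_zero hv0 hs0
  have h1 : (s' / (v * s)) ^ ℓ = 1 := by
    rw [div_pow, h, ← mul_pow, div_self (pow_ne_zero _ hvs)]
  have : NeZero ℓ := ⟨hℓ⟩
  obtain ⟨i, -, hi⟩ := hz.eq_pow_of_pow_eq_one h1
  have hz0 : algebraMap K Ω ζ ≠ 0 := hz.ne_zero hℓ
  refine sup_eq M (x := algebraMap K Ω ζ ^ i * v)
    (mul_mem (pow_mem (IntermediateField.algebraMap_mem M ζ) i) hv)
    (mul_ne_zero (pow_ne_zero _ hz0) hv0) ?_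
  rw [hi]
  field_simp

end

section data

variable {K Ω : Type} [Field K] [NumberField K] [Field Ω] [Algebra K Ω] [IsAlgClosure K Ω]
  (M : IntermediateField K Ω) [FiniteDimensional K M] [NumberField M]

theorem dsc_pos : (0 : ℝ) < dsc M := by
  unfold Pool.Agent.TH444.ML.dsc
  rw [dif_pos ‹NumberField M›]
  have := Pool.Agent.TH293.J3093.disc_pos M
  linarith

theorem dat (hDL : DiscLow) {ℓ : ℕ} (hℓ : ℓ.Prime) (hz : HasZ ℓ K)
    (rep : ClassGroup (𝓞 M) → Ideal (𝓞 M)) (hrep : Rep M rep) (Y : ℝ)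
    (L : IntermediateField K Ω) (hL : L ∈ KS ℓ M Y) :
    ∃ (C : ClassGroup (𝓞 M)) (f : Fin (ℓ - 1) → Ideal (𝓞 M)) (α : 𝓞 M) (s : Ω), α ≠ 0 ∧
      s ^ ℓ = ((α : M) : Ω) ∧ Kum ℓ M L s ∧
      Ideal.span {α} = (∏ i, f i ^ ((i : ℕ) + 1)) * rep C ^ ℓ ∧ (∀ i, f i ≠ ⊥) ∧ 1 ≤ Y ∧
      (Ideal.absNorm (∏ i, f i) : ℝ) ^ (ℓ - 1) ≤ Y := by
  classical
  obtain ⟨⟨s, hs⟩, hdsc⟩ := hL
  have hℓ2 := hℓ.two_le
  have hs0 : s ≠ 0 := fun h0 => hs.2.1 (h0 ▸ zero_mem M)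
  obtain ⟨x, hx⟩ : ∃ x : M, (x : Ω) = s ^ ℓ := ⟨⟨s ^ ℓ, hs.1⟩, rfl⟩
  have hx0 : x ≠ 0 := by
    intro h0
    rw [h0] at hx
    exact pow_ne_zero ℓ hs0 hx.symm
  obtain ⟨a, b, hb, hab⟩ := IsFractionRing.div_surjective (A := 𝓞 M) x
  have hb0 : b ≠ 0 := nonZeroDivisors.ne_zero hb
  have hb0' : (algebraMap (𝓞 M) M b) ≠ 0 := by
    rwa [Ne, FaithfulSMul.algebraMap_eq_zero_iff]
  have ha0 : a ≠ 0 := by
    intro h0
    rw [h0, map_zero, zero_div] at hab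
    exact hx0 hab.symm
  obtain ⟨α₁, hα₁⟩ : ∃ α₁ : 𝓞 M, α₁ = a * b ^ (ℓ - 1) := ⟨_, rfl⟩
  have hα₁0 : α₁ ≠ 0 := by
    rw [hα₁]
    exact mul_ne_zero ha0 (pow_ne_zero _ hb0)
  have hα₁x : (algebraMap (𝓞 M) M α₁) = (algebraMap (𝓞 M) M b) ^ ℓ * x := by
    rw [hα₁, map_mul, map_pow, ← hab]
    have h1 : (algebraMap (𝓞 M) M b) ^ ℓ = (algebraMap (𝓞 M) M b) ^ (ℓ - 1) *
        algebraMap (𝓞 M) M b := by
      rw [← pow_succ]
      congr 1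
      omega
    rw [h1]
    field_simp
  have hspan0 : Ideal.span {α₁} ≠ ⊥ := by
    rw [Ne, Ideal.span_singleton_eq_bot]
    exact hα₁0
  obtain ⟨W, m, 𝔟, hW, h𝔟, hI⟩ := split ℓ hℓ2 (Ideal.span {α₁}) hspan0
  obtain ⟨𝔯, h𝔯⟩ : ∃ 𝔯, 𝔯 = ∏ P ∈ W, P ^ ((m P : ℕ) + 1) := ⟨_, rfl⟩
  rw [← h𝔯] at hI
  obtain ⟨C, hC⟩ : ∃ C, C = ClassGroup.mk0 ⟨𝔟, mem_nonZeroDivisors_of_ne_zero h𝔟⟩ := ⟨_, rfl⟩
  obtain ⟨hr1, hr2⟩ := hrep C
  have hcl : ClassGroup.mk0 ⟨𝔟, mem_nonZeroDivisors_of_ne_zero h𝔟⟩ =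
      ClassGroup.mk0 ⟨rep C, hr1⟩ := by rw [hr2, hC]
  rw [ClassGroup.mk0_eq_mk0_iff] at hcl
  obtain ⟨y, z, hy0, hz0, hyz⟩ := hcl
  have hyz' : Ideal.span {y} * 𝔟 = Ideal.span {z} * rep C := hyz
  have hkey : Ideal.span {α₁ * y ^ ℓ} = Ideal.span {z ^ ℓ} * (𝔯 * rep C ^ ℓ) := by
    rw [← Ideal.span_singleton_mul_span_singleton, ← Ideal.span_singleton_pow, hI,
      ← Ideal.span_singleton_pow]
    calc 𝔯 * 𝔟 ^ ℓ * Ideal.span {y} ^ ℓ = 𝔯 * (Ideal.span {y} * 𝔟) ^ ℓ := by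
          rw [mul_pow]
          ring
      _ = _ := by
          rw [hyz', mul_pow]
          ring
  have hdvd : z ^ ℓ ∣ α₁ * y ^ ℓ := by
    have h1 : Ideal.span {α₁ * y ^ ℓ} ≤ Ideal.span {z ^ ℓ} := by
      rw [hkey]
      exact Ideal.le_of_dvd (Dvd.intro _ rfl)
    exact Ideal.span_singleton_le_span_singleton.1 h1
  obtain ⟨α₂, hα₂⟩ := hdvd
  have hz0' : Ideal.span {z ^ ℓ} ≠ 0 := by
    rw [Ne, Ideal.zero_eq_bot, Ideal.span_singleton_eq_bot]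
    exact pow_ne_zero _ hz0
  have hspan : Ideal.span {α₂} = 𝔯 * rep C ^ ℓ := by
    rw [hα₂, ← Ideal.span_singleton_mul_span_singleton] at hkey
    exact mul_left_cancel₀ hz0' hkey
  have hα₂0 : α₂ ≠ 0 := by
    intro h0
    rw [h0, mul_zero] at hα₂
    exact mul_ne_zero hα₁0 (pow_ne_zero _ hy0) hα₂
  -- the new generator
  obtain ⟨t, ht⟩ : ∃ t : M, t = (algebraMap (𝓞 M) M y / algebraMap (𝓞 M) M z) *
      algebraMap (𝓞 M) M b := ⟨_, rfl⟩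
  have hy0' : (algebraMap (𝓞 M) M y) ≠ 0 := by
    rwa [Ne, FaithfulSMul.algebraMap_eq_zero_iff]
  have hz0'' : (algebraMap (𝓞 M) M z) ≠ 0 := by
    rwa [Ne, FaithfulSMul.algebraMap_eq_zero_iff]
  have ht0 : t ≠ 0 := by
    rw [ht]
    exact mul_ne_zero (div_ne_zero hy0' hz0'') hb0'
  have ht0' : (t : Ω) ≠ 0 := by
    intro h0
    exact ht0 (Subtype.ext h0)
  have hkum : Kum ℓ M L ((t : Ω) * s) := kum_mul M hs t.2 ht0'
  have htx : t ^ ℓ * x = algebraMap (𝓞 M) M α₂ := by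
    have h1 : algebraMap (𝓞 M) M α₁ * algebraMap (𝓞 M) M y ^ ℓ =
        algebraMap (𝓞 M) M z ^ ℓ * algebraMap (𝓞 M) M α₂ := by
      rw [← map_pow, ← map_pow, ← map_mul, ← map_mul, hα₂]
    have h2 : algebraMap (𝓞 M) M z ^ ℓ ≠ 0 := pow_ne_zero _ hz0''
    apply mul_left_cancel₀ h2
    rw [← h1, ht, mul_pow, div_pow, hα₁x]
    field_simp
  have hpow : ((t : Ω) * s) ^ ℓ = ((α₂ : M) : Ω) := by
    rw [mul_pow, ← hx]
    have h1 := congrArg (fun w : M => (w : Ω)) htx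
    simpa using h1
  have hWP : ∀ P ∈ W, P.IsPrime ∧ P ∣ 𝔯 ∧ ¬ P ^ ℓ ∣ 𝔯 := by
    intro P hP
    refine ⟨Ideal.isPrime_of_prime (hW P hP), ?_, ?_⟩
    · rw [h𝔯]
      exact (dvd_pow_self P (Nat.succ_ne_zero _)).trans
        (Finset.dvd_prod_of_mem (fun P => P ^ ((m P : ℕ) + 1)) hP)
    · rw [h𝔯]
      refine not_pow W (fun P => (m P : ℕ) + 1) ℓ hW P hP ?_
      have := (m P).2
      show (m P : ℕ) + 1 < ℓ
      omega
  have hlow := hDL ℓ K Ω M L α₂ ((t : Ω) * s) 𝔯 (rep C) W hℓ hz hα₂0 hpow hkum hspan hWP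
  have hdM : (0 : ℝ) < dsc M ^ ℓ := pow_pos (dsc_pos M) ℓ
  have hprodY : (∏ P ∈ W, (Ideal.absNorm P : ℝ)) ^ (ℓ - 1) ≤ Y := by
    have h1 := hlow.trans hdsc
    rw [mul_comm Y] at h1
    exact le_of_mul_le_mul_left h1 hdM
  have hone : (1 : ℝ) ≤ ∏ P ∈ W, (Ideal.absNorm P : ℝ) := by
    have h1 : (1 : ℕ) ≤ ∏ P ∈ W, Ideal.absNorm P := by
      refine Nat.one_le_iff_ne_zero.2 (Finset.prod_ne_zero_iff.2 fun P hP h0 => ?_)
      rw [Ideal.absNorm_eq_zero_iff] at h0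
      exact (hW P hP).ne_zero h0
    exact_mod_cast h1
  refine ⟨C, fun i => ∏ P ∈ W with m P = i, P, α₂, (t : Ω) * s, hα₂0, hpow, hkum, ?_, ?_, ?_, ?_⟩
  · rw [hspan, h𝔯]
    congr 1
    rw [← Finset.prod_fiberwise W m]
    refine Finset.prod_congr rfl fun i _ => ?_
    rw [← Finset.prod_pow]
    refine Finset.prod_congr rfl fun P hP => ?_
    rw [(Finset.mem_filter.1 hP).2]
  · intro i
    rw [← Ideal.zero_eq_bot, Finset.prod_ne_zero_iff]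
    intro P hP
    exact (hW P (Finset.mem_filter.1 hP).1).ne_zero
  · exact (one_le_pow₀ hone).trans hprodY
  · have h1 : ∏ i, ∏ P ∈ W with m P = i, P = ∏ P ∈ W, P := Finset.prod_fiberwise W m _
    rw [h1, map_prod]
    push_cast
    exact hprodY

end data

section units

variable (M : Type) [Field M] [NumberField M]

/-- the exponents of a unit modulo `ℓ` -/
theorem exists_par (ℓ : ℕ) : ∃ par : (𝓞 M)ˣ → ZMod ℓ × (Fin (Units.rank M) → ZMod ℓ),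
    ∀ u u' : (𝓞 M)ˣ, par u = par u' → ∃ v : (𝓞 M)ˣ, u' = v ^ ℓ * u := by
  classical
  obtain ⟨g, hg⟩ := IsCyclic.exists_generator (α := Units.torsion M)
  have h1 : ∀ u : (𝓞 M)ˣ, ∃ (m : ℤ) (e : Fin (Units.rank M) → ℤ),
      u = (g : (𝓞 M)ˣ) ^ m * ∏ i, (Units.fundSystem M i) ^ (e i) := by
    intro u
    obtain ⟨⟨ζ, e⟩, hu, -⟩ := Units.exist_unique_eq_mul_prod M u
    obtain ⟨m, hm⟩ := Subgroup.mem_zpowers_iff.1 (hg ζ)
    refine ⟨m, e, ?_⟩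
    rw [hu, ← hm]
    simp
  choose m e hme using h1
  refine ⟨fun u => ((m u : ZMod ℓ), fun i => (e u i : ZMod ℓ)), ?_⟩
  intro u u' h
  rw [Prod.mk.injEq] at h
  obtain ⟨h2, h3⟩ := h
  have h4 : (ℓ : ℤ) ∣ m u' - m u := (ZMod.intCast_eq_intCast_iff_dvd_sub _ _ _).1 h2
  have h5 : ∀ i, (ℓ : ℤ) ∣ e u' i - e u i := fun i =>
    (ZMod.intCast_eq_intCast_iff_dvd_sub _ _ _).1 (congrFun h3 i)
  obtain ⟨a, ha⟩ := h4
  choose b hb using h5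
  refine ⟨(g : (𝓞 M)ˣ) ^ a * ∏ i, (Units.fundSystem M i) ^ (b i), ?_⟩
  rw [hme u', hme u, mul_pow, ← Finset.prod_pow]
  have e1 : (g : (𝓞 M)ˣ) ^ m u' = ((g : (𝓞 M)ˣ) ^ a) ^ ℓ * (g : (𝓞 M)ˣ) ^ m u := by
    rw [← zpow_natCast, ← zpow_mul, ← zpow_add]
    congr 1
    linarith
  have e2 : ∏ i, (Units.fundSystem M i) ^ (e u' i) =
      (∏ i, ((Units.fundSystem M i) ^ (b i)) ^ ℓ) * ∏ i, (Units.fundSystem M i) ^ (e u i) := by
    rw [← Finset.prod_mul_distrib]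
    refine Finset.prod_congr rfl fun i _ => ?_
    rw [← zpow_natCast, ← zpow_mul, ← zpow_add]
    congr 1
    linarith [hb i]
  rw [e1, e2]
  exact mul_mul_mul_comm _ _ _ _

theorem card_par (ℓ : ℕ) [NeZero ℓ] :
    Fintype.card (ZMod ℓ × (Fin (Units.rank M) → ZMod ℓ)) ≤ ℓ ^ Module.finrank ℚ M := by
  rw [Fintype.card_prod, Fintype.card_fun, ZMod.card, Fintype.card_fin, mul_comm, ← pow_succ]
  exact Nat.pow_le_pow_right (Nat.pos_of_ne_zero (NeZero.ne ℓ))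
    (Pool.Agent.TH293.J3093.rank_lt M)

end units

/-- KumUnif -/
theorem t_KumUnif : (Pool.Agent.U737.MN.DegL → Pool.Agent.U737.MN.DiscLow →
    Pool.Agent.U737.MN.TupUnif → Pool.Agent.TH444.ML.IdealUnif → Pool.Agent.U737.MN.KumUnif) := by
  classical
  intro _ hDL hTU hIU ℓ D ε hℓ hε
  have hℓ2 := hℓ.two_le
  have hℓ0 : ℓ ≠ 0 := hℓ.ne_zero
  have hNZ : NeZero ℓ := ⟨hℓ0⟩
  have hℓ2R : (2 : ℝ) ≤ ℓ := by exact_mod_cast hℓ2
  obtain ⟨q, hq⟩ : ∃ q : ℝ, q = (ℓ : ℝ) - 1 := ⟨_, rfl⟩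
  have hq0 : 0 < q := by rw [hq]; linarith
  have hqn : ((ℓ - 1 : ℕ) : ℝ) = q := by
    rw [hq, Nat.cast_sub (by omega), Nat.cast_one]
  obtain ⟨CT, hCT⟩ := hTU D (ℓ - 1) (ε * q) (by positivity)
  obtain ⟨CI, hCI⟩ := hIU D
  refine ⟨|CI| * (2 ^ D) ^ (5 / 4 : ℝ) * (|CT| * ℓ ^ D), by positivity, ?_⟩
  intro K Ω _ _ _ _ _ M _ hz hD Y hY
  rw [← hq]
  have hNM : NumberField M := NumberField.of_module_finite K M
  obtain ⟨d, hd⟩ : ∃ d : ℝ, d = dsc M := ⟨_, rfl⟩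
  have hdM : d = ((|discr M| : ℤ) : ℝ) := by
    rw [hd]
    unfold Pool.Agent.TH444.ML.dsc
    rw [dif_pos hNM]
  have hd1 : 1 ≤ d := by
    rw [hdM]
    exact Pool.Agent.TH293.J3093.disc_pos M
  have hd0 : 0 ≤ d := by linarith
  rw [← hd]
  rcases Set.eq_empty_or_nonempty (KS ℓ M Y) with hemp | ⟨L0, hL0⟩
  · rw [hemp]
    refine ⟨Set.finite_empty, ?_⟩
    rw [Set.ncard_empty, Nat.cast_zero]
    positivity
  obtain ⟨rep, hrep, hrep0, hinj, hrepN⟩ := Pool.Agent.TH293.J3093.exists_rep M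
  rw [hD, ← hdM] at hrepN
  obtain ⟨par, hpar⟩ := exists_par M ℓ
  obtain ⟨w, hw⟩ := Pool.Agent.TH293.J3093.exists_gen M
  have hdat := dat M hDL hℓ hz rep hrep Y
  have hY1 : 1 ≤ Y := by
    obtain ⟨C, f, α, s, -, -, -, -, -, h, -⟩ := hdat L0 hL0
    exact h
  choose! cl f al s h1 h2 h3 h4 h5 h6 h7 using hdat
  obtain ⟨T, hT⟩ : ∃ T : ℝ, T = Y ^ (1 / q) := ⟨_, rfl⟩
  have hT1 : 1 ≤ T := by
    rw [hT]
    exact Real.one_le_rpow hY1 (by positivity)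
  obtain ⟨hfinT, hcardT⟩ := hCT M hD T hT1
  obtain ⟨TS, hTS⟩ : ∃ TS : Set (Fin (ℓ - 1) → Ideal (𝓞 M)), TS =
    {f : Fin (ℓ - 1) → Ideal (𝓞 M) | (∀ i, f i ≠ ⊥) ∧
      (Ideal.absNorm (∏ i, f i) : ℝ) ≤ T} := ⟨_, rfl⟩
  rw [← hTS] at hfinT hcardT
  have hmem : ∀ L ∈ KS ℓ M Y, f L ∈ TS := by
    intro L hL
    rw [hTS]
    refine ⟨h5 L hL, ?_⟩
    have h8 := h7 L hL
    have h9 : (0 : ℝ) ≤ (Ideal.absNorm (∏ i, f L i) : ℝ) := Nat.cast_nonneg _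
    calc (Ideal.absNorm (∏ i, f L i) : ℝ) =
        ((Ideal.absNorm (∏ i, f L i) : ℝ) ^ (ℓ - 1)) ^ (1 / q) := by
          rw [← Real.rpow_natCast, ← Real.rpow_mul h9, hqn, mul_one_div_cancel hq0.ne',
            Real.rpow_one]
      _ ≤ T := by
          rw [hT]
          exact Real.rpow_le_rpow (by positivity) h8 (by positivity)
  -- the class number
  obtain ⟨δ, hδ⟩ : ∃ δ : ℝ, δ = d ^ (1 / 2 : ℝ) := ⟨_, rfl⟩
  rw [← hδ] at hrepN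
  have hδ1 : 1 ≤ δ := by
    rw [hδ]
    exact Real.one_le_rpow hd1 (by norm_num)
  have hcl : (Fintype.card (ClassGroup (𝓞 M)) : ℝ) ≤ |CI| * (2 ^ D * δ) ^ (5 / 4 : ℝ) := by
    have hZ : (1 : ℝ) ≤ 2 ^ D * δ := by
      have : (1 : ℝ) ≤ 2 ^ D := one_le_pow₀ (by norm_num)
      nlinarith
    obtain ⟨hIfin, hIcard⟩ := hCI M hD _ hZ
    have hIcard' := hIcard.trans (mul_le_mul_of_nonneg_right (le_abs_self CI)
      (Real.rpow_nonneg (by linarith) _))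
    refine le_trans ?_ hIcard'
    rw [← Nat.card_eq_fintype_card, ← Set.ncard_univ]
    have h8 : (Set.univ : Set (ClassGroup (𝓞 M))).ncard ≤
        {I : Ideal (𝓞 M) | I ≠ ⊥ ∧ (Ideal.absNorm I : ℝ) ≤ 2 ^ D * δ}.ncard :=
      Set.ncard_le_ncard_of_injOn rep (fun C _ => ⟨hrep0 C, hrepN C⟩)
        (fun C _ C' _ h => hinj h) hIfin
    exact_mod_cast h8
  -- the map
  let W := ZMod ℓ × (Fin (Units.rank M) → ZMod ℓ)
  let Φ : IntermediateField K Ω → ClassGroup (𝓞 M) × (Fin (ℓ - 1) → Ideal (𝓞 M)) × W :=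
    fun L => (cl L, f L, par (w (al L)))
  obtain ⟨S, hS⟩ : ∃ S : Set (ClassGroup (𝓞 M) × (Fin (ℓ - 1) → Ideal (𝓞 M)) × W),
    S = Set.univ ×ˢ (TS ×ˢ Set.univ) := ⟨_, rfl⟩
  have hSfin : S.Finite := by
    rw [hS]
    exact Set.finite_univ.prod (hfinT.prod Set.finite_univ)
  have hmaps : ∀ L ∈ KS ℓ M Y, Φ L ∈ S := by
    intro L hL
    rw [hS]
    exact ⟨Set.mem_univ _, hmem L hL, Set.mem_univ _⟩
  have hinjΦ : Set.InjOn Φ (KS ℓ M Y) := by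
    intro L hL L' hL' hΦ
    have e0 : cl L = cl L' := (Prod.ext_iff.1 hΦ).1
    have e00 : f L = f L' := (Prod.ext_iff.1 (Prod.ext_iff.1 hΦ).2).1
    have e2 : par (w (al L)) = par (w (al L')) := (Prod.ext_iff.1 (Prod.ext_iff.1 hΦ).2).2
    have e1 : Ideal.span {al L} = Ideal.span {al L'} := by
      rw [h4 L hL, h4 L' hL', e0, e00]
    obtain ⟨v, hv⟩ := hpar _ _ e2
    have e3 := hw _ _ e1
    rw [hv] at e3
    push_cast at e3
    have e4 : al L' = (v : 𝓞 M) ^ ℓ * al L := by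
      have hwu : ((w (al L) : (𝓞 M)ˣ) : 𝓞 M) ≠ 0 := Units.ne_zero _
      apply mul_right_cancel₀ hwu
      rw [e3]
      ring
    have hv0 : ((v : 𝓞 M) : M) ≠ 0 := by
      have : (v : 𝓞 M) ≠ 0 := Units.ne_zero v
      exact fun h => this (RingOfIntegers.ext h)
    have hv0' : (((v : 𝓞 M) : M) : Ω) ≠ 0 := fun h => hv0 (Subtype.ext h)
    have hs0 : s L ≠ 0 := fun h0 => (h3 L hL).2.1 (h0 ▸ zero_mem M)
    have e5 : (s L') ^ ℓ = (((v : 𝓞 M) : M) : Ω) ^ ℓ * (s L) ^ ℓ := by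
      rw [h2 L hL, h2 L' hL', e4]
      push_cast
      rfl
    rw [(h3 L hL).2.2, (h3 L' hL').2.2]
    exact (same M hℓ0 hz (SetLike.coe_mem _) hv0' hs0 e5).symm
  have hfin : (KS ℓ M Y).Finite := by
    refine Set.Finite.of_finite_image (f := Φ) (hSfin.subset ?_) hinjΦ
    rintro _ ⟨L, hL, rfl⟩
    exact hmaps L hL
  refine ⟨hfin, ?_⟩
  have hcard : (KS ℓ M Y).ncard ≤ S.ncard :=
    Set.ncard_le_ncard_of_injOn Φ hmaps hinjΦ hSfin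
  have hSc : S.ncard ≤ Fintype.card (ClassGroup (𝓞 M)) * (TS.ncard * ℓ ^ D) := by
    rw [hS, Set.ncard_prod, Set.ncard_prod, Set.ncard_univ, Set.ncard_univ,
      Nat.card_eq_fintype_card, Nat.card_eq_fintype_card]
    refine Nat.mul_le_mul_left _ (Nat.mul_le_mul_left _ ?_)
    have := card_par M ℓ
    rwa [hD] at this
  have hcR : ((KS ℓ M Y).ncard : ℝ) ≤
      (Fintype.card (ClassGroup (𝓞 M)) : ℝ) * ((TS.ncard : ℝ) * (ℓ : ℝ) ^ D) := by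
    exact_mod_cast hcard.trans hSc
  have hT0 : 0 ≤ T := by linarith
  have hTSc : (TS.ncard : ℝ) ≤ |CT| * Y ^ (1 / q + ε) := by
    refine hcardT.trans ?_
    have e1 : T ^ (1 + ε * q) = Y ^ (1 / q + ε) := by
      rw [hT, ← Real.rpow_mul hY]
      congr 1
      field_simp
    rw [e1]
    exact mul_le_mul_of_nonneg_right (le_abs_self CT) (Real.rpow_nonneg hY _)
  have hδd : δ ^ (5 / 4 : ℝ) ≤ d ^ (3 / 4 : ℝ) := by
    rw [hδ, ← Real.rpow_mul hd0]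
    exact Real.rpow_le_rpow_of_exponent_le hd1 (by norm_num)
  calc ((KS ℓ M Y).ncard : ℝ) ≤ _ := hcR
    _ ≤ (|CI| * (2 ^ D * δ) ^ (5 / 4 : ℝ)) * ((|CT| * Y ^ (1 / q + ε)) * (ℓ : ℝ) ^ D) := by
        gcongr
    _ = (|CI| * (2 ^ D) ^ (5 / 4 : ℝ) * (|CT| * ℓ ^ D)) * δ ^ (5 / 4 : ℝ) *
          Y ^ (1 / q + ε) := by
        rw [Real.mul_rpow (by positivity) (by linarith)]
        ring
    _ ≤ (|CI| * (2 ^ D) ^ (5 / 4 : ℝ) * (|CT| * ℓ ^ D)) * d ^ (3 / 4 : ℝ) *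
          Y ^ (1 / q + ε) := by
        gcongr

end Pool.Agent.U278.MN
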